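import Pool.Agent.Q298.SQ.Sol

set_option autoImplicit false

/-!
The additive group of the algebraic numbers with a predicate for the square-free elements is not
NTP₂: the formula `Sqf(x - y) ∧ ¬ Sqf(x) ∧ ∃ z (z + z = x ∧ Sqf(z))` has TP₂.
-/

namespace Pool.Agent.Results.MP_74b845_lc.SquareFreeTP2

open FirstOrder

/-- The algebraic closure of the rationals. -/
abbrev QBar : Type := AlgebraicClosure ℚ

/-- `v` extends the `p`-adic valuation of the rationals. (An `AddValuation` with values in
`WithTop ℚ` is a map `v : QBar → ℚ ∪ {∞}` with `v 0 = ∞`, `v 1 = 0`, `v (x * y) = v x + v y` and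
`v (x + y) ≥ min (v x) (v y)`.) -/
def Extends (p : ℕ) (v : AddValuation QBar (WithTop ℚ)) : Prop :=
  ∀ q : ℚ, q ≠ 0 → v (algebraMap ℚ QBar q) = ((padicValRat p q : ℚ) : WithTop ℚ)

/-- `a` is square-free: `v a < 2` for all valuations `v` of `QBar` that extend the `p`-adic
valuation of the rationals for some prime `p`. -/
def SquareFree (a : QBar) : Prop :=
  ∀ (p : ℕ) (v : AddValuation QBar (WithTop ℚ)), p.Prime → Extends p v → v a < 2

/-- The function symbols: the constant `1`, the unary symbol `-` and the binary symbol `+`. -/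
inductive Functions : ℕ → Type
  | one : Functions 0
  | neg : Functions 1
  | add : Functions 2

/-- The relation symbols: one unary predicate. -/
inductive Relations : ℕ → Type
  | sqf : Relations 1

/-- The language. -/
def Lang : FirstOrder.Language.{0, 0} := ⟨Functions, Relations⟩

/-- The structure on the algebraic numbers. -/
noncomputable instance structureQBar : Lang.Structure QBar where
  funMap {_} f x :=
    match f, x with
    | Functions.one, _ => 1
    | Functions.neg, x => -(x 0)
    | Functions.add, x => x 0 + x 1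
  RelMap {_} r x :=
    match r, x with
    | Relations.sqf, x => SquareFree (x 0)

/-- The formula `φ(x; y)`, with tuples `x` of length `n` and `y` of length `m`, has TP₂ in `T`: in
some model of `T` there are parameters `b i j` and a number `k` such that all sets
`{φ(x; b i j) : j ∈ J}` with `k` elements are inconsistent, and for every `f` the set
`{φ(x; b i (f i)) : i}` is consistent, that is, its finite subsets are satisfied in the model. -/
def HasTP2 {L : FirstOrder.Language.{0, 0}} (T : L.Theory) {n m : ℕ}
    (φ : L.Formula (Fin n ⊕ Fin m)) : Prop :=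
  ∃ (M : Type) (_ : L.Structure M) (_ : Nonempty M) (_ : M ⊨ T) (b : ℕ → ℕ → Fin m → M) (k : ℕ),
    (∀ (i : ℕ) (J : Finset ℕ), J.card = k →
      ¬ ∃ a : Fin n → M, ∀ j ∈ J, φ.Realize (Sum.elim a (b i j))) ∧
    ∀ (f : ℕ → ℕ) (I : Finset ℕ),
      ∃ a : Fin n → M, ∀ i ∈ I, φ.Realize (Sum.elim a (b i (f i)))

/-- `T` has NTP₂: no formula has TP₂ in `T`. -/
def NTP2 {L : FirstOrder.Language.{0, 0}} (T : L.Theory) : Prop :=
  ∀ (n m : ℕ) (φ : L.Formula (Fin n ⊕ Fin m)), ¬ HasTP2 T φ

/-- the variable `x` -/
private def tx : Lang.Term ((Fin 1 ⊕ Fin 1) ⊕ Fin 0) := Language.Term.var (Sum.inl (Sum.inl 0))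

/-- the variable `y` -/
private def ty : Lang.Term ((Fin 1 ⊕ Fin 1) ⊕ Fin 0) := Language.Term.var (Sum.inl (Sum.inr 0))

/-- the variable `x`, under a quantifier -/
private def tx' : Lang.Term ((Fin 1 ⊕ Fin 1) ⊕ Fin 1) := Language.Term.var (Sum.inl (Sum.inl 0))

/-- the quantified variable `z` -/
private def tz : Lang.Term ((Fin 1 ⊕ Fin 1) ⊕ Fin 1) := Language.Term.var (Sum.inr 0)

/-- difference of terms -/
private def subT {α : Type} (s t : Lang.Term α) : Lang.Term α :=
  Language.Term.func (L := Lang) (l := 2) Functions.add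
    ![s, Language.Term.func (L := Lang) (l := 1) Functions.neg ![t] ]

/-- sum of terms -/
private def addT {α : Type} (s t : Lang.Term α) : Lang.Term α :=
  Language.Term.func (L := Lang) (l := 2) Functions.add ![s, t]

/-- the formula `Sqf(x - y) ∧ ¬ Sqf(x) ∧ ∃ z (z + z = x ∧ Sqf(z))` -/
private def theFormula : Lang.Formula (Fin 1 ⊕ Fin 1) :=
  Language.BoundedFormula.rel (L := Lang) (l := 1) Relations.sqf ![subT tx ty] ⊓
    (∼ (Language.BoundedFormula.rel (L := Lang) (l := 1) Relations.sqf ![tx]) ⊓
      Language.BoundedFormula.ex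
        ((addT tz tz).bdEqual tx' ⊓
          Language.BoundedFormula.rel (L := Lang) (l := 1) Relations.sqf ![tz]))

private theorem realize_theFormula (a b : Fin 1 → QBar) :
    theFormula.Realize (Sum.elim a b) ↔ Pool.Agent.Q298.SQ.Cond (a 0) (b 0) := by
  have key : ∀ (u : QBar), SquareFree u ↔ Pool.Agent.Q298.SQ.Sqf u := fun u => Iff.rfl
  unfold Pool.Agent.Q298.SQ.Cond
  rw [sub_eq_add_neg, ← key, ← key]
  simp only [← key]
  unfold theFormula Language.Formula.Realize
  rw [Language.BoundedFormula.realize_inf, Language.BoundedFormula.realize_inf,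
    Language.BoundedFormula.realize_not, Language.BoundedFormula.realize_ex]
  refine and_congr ?_ (and_congr (not_congr ?_) (exists_congr fun z => ?_))
  · exact Iff.rfl
  · exact Iff.rfl
  · rw [Language.BoundedFormula.realize_inf, Language.BoundedFormula.realize_bdEqual]
    exact Iff.rfl

/-- **Theorem.** The complete theory of the algebraic numbers with `+`, `1`, `-` and the predicate
for the square-free elements does not have NTP₂; already some formula `φ(x; y)` with single
variables `x` and `y` has TP₂. -/
theorem result : (∃ φ : Lang.Formula (Fin 1 ⊕ Fin 1), HasTP2 (Lang.completeTheory QBar) φ) ∧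
    ¬ NTP2 (Lang.completeTheory QBar) := by
  have h : ∃ φ : Lang.Formula (Fin 1 ⊕ Fin 1), HasTP2 (Lang.completeTheory QBar) φ := by
    refine ⟨theFormula, QBar, inferInstance, inferInstance, inferInstance,
      fun i j _ => Pool.Agent.Q298.SQ.ee i j, 2, ?_, ?_⟩
    · rintro i J hJ ⟨a, ha⟩
      obtain ⟨j, k, hjk, rfl⟩ := Finset.card_eq_two.1 hJ
      have h1 := (realize_theFormula a _).1 (ha j (by simp))
      have h2 := (realize_theFormula a _).1 (ha k (by simp))
      rcases lt_or_gt_of_ne hjk with h | h
      · exact Pool.Agent.Q298.SQ.row i h _ h1 h2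
      · exact Pool.Agent.Q298.SQ.row i h _ h2 h1
    · intro f I
      obtain ⟨x, hx⟩ := Pool.Agent.Q298.SQ.path f (I.sup id + 1)
      refine ⟨fun _ => x, fun i hi => (realize_theFormula _ _).2 (hx i ?_)⟩
      exact Nat.lt_succ_of_le (Finset.le_sup (f := id) hi)
  exact ⟨h, fun hN => by
    obtain ⟨φ, hφ⟩ := h
    exact hN 1 1 φ hφ⟩

end Pool.Agent.Results.MP_74b845_lc.SquareFreeTP2
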